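import Pool.Agent.NUQD.DetFin

/-!
# The confluent limit of the kernel determinant (real form)

`RD (ε i)` as `ε → 0+`, from the limit of `det [Ak (ε (i - j))] / ε ^ (n (n - 1))`.
-/

open Filter Topology Finset NUGas.QD

noncomputable section

namespace NUQ48

/-- product of the pairs of a constant, squared -/
lemma confR_pairs (n : ℕ) (c : ℝ) :
    (∏ i : Fin n, ∏ _j ∈ Ioi i, c) ^ 2 = c ^ (n * (n - 1)) := by
  simp only [Finset.prod_const, Fin.card_Ioi]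
  rw [Finset.prod_pow_eq_pow_sum, ← pow_mul]
  congr 1
  rw [Fin.sum_univ_eq_sum_range (fun i => n - 1 - i) n, Finset.sum_range_reflect (fun i => i) n,
    Finset.sum_range_id_mul_two]

/-- the product of the differences -/
lemma confR_diff (n : ℕ) :
    (∏ i : Fin n, ∏ j ∈ Ioi i, ((j : ℝ) - (i : ℝ))) = ∏ k ∈ Finset.range n, (k.factorial : ℝ) := by
  rcases n with _ | n
  · simp
  · have h1 := Matrix.det_vandermonde (R := ℝ) (fun i : Fin (n + 1) => (i : ℝ))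
    have h2 := Matrix.det_vandermonde_id_eq_superFactorial (R := ℝ) n
    rw [← h1, h2, ← Nat.prod_range_factorial_succ]
    rw [Finset.prod_range_succ']
    push_cast
    simp

lemma confR_pf {i j : ℕ} (hij : i < j) :
    Tendsto (fun ε : ℝ => ε * pf (ε * i) (ε * j)) (𝓝[>] 0)
      (𝓝 (-(1 + √2 / 2) / ((j : ℝ) - i))) := by
  have hne : (j : ℝ) - i ≠ 0 := sub_ne_zero.2 (by exact_mod_cast hij.ne')
  have h1 : Tendsto (fun ε : ℝ => Real.exp (ε * i + ε * j) *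
      (Real.cosh (2 * (ε * i - ε * j)) + √2 / 2)) (𝓝[>] 0) (𝓝 (1 + √2 / 2)) := by
    have hc : Continuous fun ε : ℝ => Real.exp (ε * i + ε * j) *
      (Real.cosh (2 * (ε * i - ε * j)) + √2 / 2) := by fun_prop
    have := (hc.tendsto 0).mono_left (nhdsWithin_le_nhds (s := Set.Ioi (0 : ℝ)))
    simpa using this
  have h2 : Tendsto (fun ε : ℝ => ε⁻¹ * Real.sinh (ε * i - ε * j)) (𝓝[>] 0)
      (𝓝 (-((j : ℝ) - i))) := by
    have hd : HasDerivAt (fun ε : ℝ => Real.sinh (ε * i - ε * j))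
        (Real.cosh (0 * i - 0 * j) * (1 * (i : ℝ) - 1 * j)) 0 := by
      have hi : HasDerivAt (fun ε : ℝ => ε * (i : ℝ)) (1 * (i : ℝ)) 0 :=
        (hasDerivAt_id (0 : ℝ)).mul_const _
      have hj : HasDerivAt (fun ε : ℝ => ε * (j : ℝ)) (1 * (j : ℝ)) 0 :=
        (hasDerivAt_id (0 : ℝ)).mul_const _
      exact (hi.sub hj).sinh
    have h := hd.tendsto_slope_zero_right
    simp only [zero_mul, sub_self, Real.cosh_zero, one_mul, zero_add, Real.sinh_zero, sub_zero,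
      smul_eq_mul] at h
    rw [neg_sub]
    exact h
  have h3 := h1.div h2 (neg_ne_zero.2 hne)
  rw [div_neg, ← neg_div] at h3
  refine h3.congr' ?_
  filter_upwards [self_mem_nhdsWithin] with ε hε
  have hε' : ε ≠ 0 := ne_of_gt hε
  simp only [Pi.div_apply]
  rw [pf]
  field_simp

/-- **confluent limit** -/
theorem lim_RD {n : ℕ} {L : ℝ} (hL : Tendsto (fun ε : ℝ =>
    (Matrix.of fun i j : Fin n => Ak (ε * (i : ℝ) - ε * (j : ℝ))).det / ε ^ (n * (n - 1)))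
      (𝓝[>] 0) (𝓝 L)) :
    Tendsto (fun ε : ℝ => RD (fun i : Fin n => ε * (i : ℝ))) (𝓝[>] 0)
      (𝓝 ((1 + √2 / 2) ^ (n * (n - 1)) /
        ((∏ k ∈ Finset.range n, (k.factorial : ℝ)) ^ 2) * L)) := by
  have h1 : Tendsto (fun ε : ℝ => (∏ i : Fin n, ∏ j ∈ Ioi i, (ε * pf (ε * (i : ℝ)) (ε * (j : ℝ)))) ^ 2)
      (𝓝[>] 0) (𝓝 ((∏ i : Fin n, ∏ j ∈ Ioi i, (-(1 + √2 / 2) / ((j : ℝ) - i))) ^ 2)) := by
    refine Tendsto.pow ?_ 2
    refine tendsto_finsetProd _ fun i _ => tendsto_finsetProd _ fun j hj => ?_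
    have hij : i < j := Finset.mem_Ioi.1 hj
    have hlt : (i : ℕ) < (j : ℕ) := hij
    exact confR_pf hlt
  have h2 := h1.mul hL
  have e1 : (∏ i : Fin n, ∏ j ∈ Ioi i, (-(1 + √2 / 2) / ((j : ℝ) - i))) ^ 2 =
      (1 + √2 / 2) ^ (n * (n - 1)) / ((∏ k ∈ Finset.range n, (k.factorial : ℝ)) ^ 2) := by
    rw [← confR_diff, ← confR_pairs, ← div_pow]
    have : ∀ i : Fin n, ∏ j ∈ Ioi i, (-(1 + √2 / 2) / ((j : ℝ) - i)) =
        (∏ j ∈ Ioi i, (-1 : ℝ)) * ((∏ _j ∈ Ioi i, (1 + √2 / 2)) / ∏ j ∈ Ioi i, ((j : ℝ) - i)) := by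
      intro i
      rw [← Finset.prod_div_distrib, ← Finset.prod_mul_distrib]
      refine Finset.prod_congr rfl fun j _ => ?_
      ring
    simp only [this]
    rw [Finset.prod_mul_distrib, Finset.prod_div_distrib, mul_pow, confR_pairs]
    have : ((-1 : ℝ)) ^ (n * (n - 1)) = 1 := (Nat.even_mul_pred_self n).neg_one_pow
    rw [this, one_mul]
  rw [e1] at h2
  refine h2.congr' ?_
  filter_upwards [self_mem_nhdsWithin] with ε hε
  have hε' : ε ≠ 0 := ne_of_gt hε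
  have e2 : (∏ i : Fin n, ∏ j ∈ Ioi i, (ε * pf (ε * (i : ℝ)) (ε * (j : ℝ)))) ^ 2 =
      ε ^ (n * (n - 1)) * (∏ i : Fin n, ∏ j ∈ Ioi i, pf (ε * (i : ℝ)) (ε * (j : ℝ))) ^ 2 := by
    simp only [Finset.prod_mul_distrib]
    rw [mul_pow, confR_pairs]
  rw [e2, RD]
  field_simp

end NUQ48

end
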